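import Pool.Agent.J4H27.GE.Defs2

/-!
# Project GE: `TRN`, translations near the origin
-/

set_option autoImplicit false

open MvPolynomial Height Filter NumberField WeierstrassCurve
open Pool.Agent.J4H27.GC Pool.Agent.TH942 Pool.Agent.J4H27.GE

namespace Pool.Agent.J4H17.GE

/-- the values at a place are an absolute value -/
theorem pv_abs {K : Type} [Field K] [NumberField K] (v : FinitePlace K ⊕ InfinitePlace K) :
    ∃ A : AbsoluteValue K ℝ, ∀ x, pv v x = A x := by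
  cases v with
  | inl v => exact ⟨v.1, fun x => rfl⟩
  | inr w => exact ⟨w.1, fun x => rfl⟩

/-- the coordinate of the sum -/
theorem xc_add {K : Type} [Field K] [DecidableEq K] {a b : K} (P T : SPt a b) (hP : P ≠ 0)
    (hT : T ≠ 0) (hx : xc P ≠ xc T) :
    P + T ≠ 0 ∧ xc (P + T) = snum a b (xc P) (xc T) (yc P * yc T) / (xc P - xc T) ^ 2 := by
  obtain ⟨h1, e1⟩ := eq_some P hP
  obtain ⟨h2, e2⟩ := eq_some T hT
  have hs := sxRep_add h1 h2 hx
  rw [← e1, ← e2] at hs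
  have hne : P + T ≠ 0 := by
    intro h0
    rw [h0, Affine.Point.xRep_zero] at hs
    have := congrFun hs 1
    simp at this
  refine ⟨hne, ?_⟩
  obtain ⟨h3, e3⟩ := eq_some (P + T) hne
  rw [e3, Affine.Point.xRep_some] at hs
  have := congrFun hs 0
  simpa using this

theorem xc_add_sub {K : Type} [Field K] [DecidableEq K] {a b : K} (P T : SPt a b) (hP : P ≠ 0)
    (hT : T ≠ 0) (hx : xc P ≠ xc T) :
    (xc (P + T) - xc T) * (xc P - xc T) ^ 2 =
      3 * xc P * xc T ^ 2 - xc T ^ 3 + a * (xc P + xc T) + 2 * b - 2 * (yc P * yc T) := by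
  obtain ⟨-, h⟩ := xc_add P T hP hT hx
  have hx' : xc P - xc T ≠ 0 := sub_ne_zero.mpr hx
  rw [h, snum]
  field_simp
  ring

/-- the real inequality behind `TRN` -/
theorem real_bound (t s α β X Y : ℝ) (ht0 : 0 ≤ t) (hs0 : 0 ≤ s) (hα0 : 0 ≤ α) (hβ0 : 0 ≤ β)
    (hX1 : 1 ≤ X) (hY0 : 0 ≤ Y) (hy : Y ^ 2 ≤ X ^ 3 + α * X + β) :
    3 * X * t ^ 2 + t ^ 3 + α * (X + t) + 2 * β + 2 * (Y * s) ≤
      (3 * t ^ 2 + t ^ 3 + α * (1 + t) + 2 * β + 2 * (s * (1 + α + β))) * (X * Real.sqrt X) := by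
  have hX3 : 1 ≤ X ^ 3 := one_le_pow₀ hX1
  have hXX3 : X ≤ X ^ 3 := by
    have : X * 1 ≤ X * X ^ 2 := mul_le_mul_of_nonneg_left (one_le_pow₀ hX1) (by linarith)
    calc X = X * 1 := by ring
      _ ≤ X * X ^ 2 := this
      _ = X ^ 3 := by ring
  have hy' : Y ^ 2 ≤ (1 + α + β) * X ^ 3 := by
    have e2 : α * X ≤ α * X ^ 3 := mul_le_mul_of_nonneg_left hXX3 hα0
    have e3 : β * 1 ≤ β * X ^ 3 := mul_le_mul_of_nonneg_left hX3 hβ0
    have : (1 + α + β) * X ^ 3 = X ^ 3 + α * X ^ 3 + β * X ^ 3 := by ring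
    linarith
  have hYX : Y ≤ (1 + α + β) * (X * Real.sqrt X) := by
    have h1 : Y ^ 2 ≤ ((1 + α + β) * (X * Real.sqrt X)) ^ 2 := by
      have hsq : Real.sqrt X ^ 2 = X := Real.sq_sqrt (by linarith)
      have h2 : ((1 + α + β) * (X * Real.sqrt X)) ^ 2 = (1 + α + β) ^ 2 * X ^ 3 := by
        rw [mul_pow, mul_pow, hsq]; ring
      rw [h2]
      refine hy'.trans (mul_le_mul_of_nonneg_right ?_ (by linarith))
      have : (1 : ℝ) ≤ 1 + α + β := by linarith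
      calc (1 + α + β) = (1 + α + β) * 1 := by ring
        _ ≤ (1 + α + β) * (1 + α + β) := mul_le_mul_of_nonneg_left this (by linarith)
        _ = (1 + α + β) ^ 2 := by ring
    exact le_of_sq_le_sq h1 (by positivity)
  have hsX : 1 ≤ Real.sqrt X := by
    rw [show (1 : ℝ) = Real.sqrt 1 by simp]
    exact Real.sqrt_le_sqrt hX1
  obtain ⟨W, hW⟩ : ∃ W, W = X * Real.sqrt X := ⟨_, rfl⟩
  rw [← hW] at hYX ⊢
  have hXs : X ≤ W := by
    rw [hW]
    calc X = X * 1 := by ring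
      _ ≤ X * Real.sqrt X := mul_le_mul_of_nonneg_left hsX (by linarith)
  have h1s : 1 ≤ W := hX1.trans hXs
  have k1 : 3 * t ^ 2 * X ≤ 3 * t ^ 2 * W := mul_le_mul_of_nonneg_left hXs (by positivity)
  have k2 : t ^ 3 * 1 ≤ t ^ 3 * W := mul_le_mul_of_nonneg_left h1s (by positivity)
  have k3 : α * X ≤ α * W := mul_le_mul_of_nonneg_left hXs hα0
  have k3' : α * t * 1 ≤ α * t * W := mul_le_mul_of_nonneg_left h1s (mul_nonneg hα0 ht0)
  have k4 : 2 * β * 1 ≤ 2 * β * W := mul_le_mul_of_nonneg_left h1s (by positivity)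
  have k5 : s * Y ≤ s * ((1 + α + β) * W) := mul_le_mul_of_nonneg_left hYX hs0
  have e : (3 * t ^ 2 + t ^ 3 + α * (1 + t) + 2 * β + 2 * (s * (1 + α + β))) * W
      = 3 * t ^ 2 * W + t ^ 3 * W + (α * W + α * t * W) + 2 * β * W
        + 2 * (s * ((1 + α + β) * W)) := by ring
  have e' : 3 * X * t ^ 2 + t ^ 3 + α * (X + t) + 2 * β + 2 * (Y * s)
      = 3 * t ^ 2 * X + t ^ 3 * 1 + (α * X + α * t * 1) + 2 * β * 1 + 2 * (s * Y) := by ring
  rw [e, e']
  linarith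

/-- the numerator -/
theorem num_bound {K : Type} [Field K] (A : AbsoluteValue K ℝ) (a b x1 x2 y1 y2 : K) :
    A (3 * x1 * x2 ^ 2 - x2 ^ 3 + a * (x1 + x2) + 2 * b - 2 * (y1 * y2)) ≤
      3 * A x1 * A x2 ^ 2 + A x2 ^ 3 + A a * (A x1 + A x2) + 2 * A b + 2 * (A y1 * A y2) := by
  have hnat : ∀ n : ℕ, A (n : K) ≤ n := by
    intro n
    induction n with
    | zero => simp
    | succ n ih =>
      push_cast
      refine (A.add_le _ _).trans ?_
      rw [map_one]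
      linarith
  have h2 : A (2 : K) ≤ 2 := by simpa using hnat 2
  have h3 : A (3 : K) ≤ 3 := by simpa using hnat 3
  have f1 : A (3 * x1 * x2 ^ 2) ≤ 3 * A x1 * A x2 ^ 2 := by
    rw [map_mul, map_mul, map_pow]
    exact mul_le_mul_of_nonneg_right (mul_le_mul_of_nonneg_right h3 (A.nonneg _))
      (pow_nonneg (A.nonneg _) _)
  have f2 : A (x2 ^ 3) = A x2 ^ 3 := by rw [map_pow]
  have f3 : A (a * (x1 + x2)) ≤ A a * (A x1 + A x2) := by
    rw [map_mul]
    exact mul_le_mul_of_nonneg_left (A.add_le _ _) (A.nonneg _)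
  have f4 : A (2 * b) ≤ 2 * A b := by
    rw [map_mul]
    exact mul_le_mul_of_nonneg_right h2 (A.nonneg _)
  have f5 : A (2 * (y1 * y2)) ≤ 2 * (A y1 * A y2) := by
    rw [map_mul, map_mul]
    exact mul_le_mul_of_nonneg_right h2 (mul_nonneg (A.nonneg _) (A.nonneg _))
  have g1 := A.sub_le_add (3 * x1 * x2 ^ 2) (x2 ^ 3)
  have g2 := A.add_le (3 * x1 * x2 ^ 2 - x2 ^ 3) (a * (x1 + x2))
  have g3 := A.add_le (3 * x1 * x2 ^ 2 - x2 ^ 3 + a * (x1 + x2)) (2 * b)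
  have g4 := A.sub_le_add (3 * x1 * x2 ^ 2 - x2 ^ 3 + a * (x1 + x2) + 2 * b) (2 * (y1 * y2))
  linarith

/-- the end of the proof -/
theorem end_bound (X D Z M : ℝ) (hX1 : 1 ≤ X) (hD0 : 0 ≤ D) (hZ0 : 0 ≤ Z) (hM : X / 2 ≤ M)
    (hm : Z * M ^ 2 ≤ D * (X * Real.sqrt X)) : Z ^ 2 * X ≤ 16 * D ^ 2 := by
  have hX0 : 0 < X := by linarith
  have hsq : Real.sqrt X * Real.sqrt X = X := Real.mul_self_sqrt hX0.le
  have hs0 : 0 < Real.sqrt X := Real.sqrt_pos.2 hX0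
  have hm2 : Z * (X / 2) ^ 2 ≤ D * (X * Real.sqrt X) := by
    refine le_trans (mul_le_mul_of_nonneg_left ?_ hZ0) hm
    exact pow_le_pow_left₀ (by linarith) hM 2
  have hfin : Z * Real.sqrt X ≤ 4 * D := by
    have h1 : Z * Real.sqrt X * (X * Real.sqrt X) ≤ 4 * D * (X * Real.sqrt X) := by
      have h2 : Z * Real.sqrt X * (X * Real.sqrt X) = 4 * (Z * (X / 2) ^ 2) := by
        have h3 : Z * Real.sqrt X * (X * Real.sqrt X)
            = Z * X * (Real.sqrt X * Real.sqrt X) := by ring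
        rw [h3, hsq]; ring
      rw [h2]
      linarith
    exact le_of_mul_le_mul_right h1 (by positivity)
  have h4 : Z ^ 2 * X = (Z * Real.sqrt X) ^ 2 := by
    rw [mul_pow, Real.sq_sqrt hX0.le]
  rw [h4]
  have hZs : 0 ≤ Z * Real.sqrt X := by positivity
  calc (Z * Real.sqrt X) ^ 2 ≤ (4 * D) ^ 2 := pow_le_pow_left₀ hZs hfin 2
    _ = 16 * D ^ 2 := by ring

theorem t_TRN : S_TRN := by
  intro K _ _ _ a b _ T hT v
  obtain ⟨A, hA⟩ := pv_abs v
  simp only [hA]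
  obtain ⟨D, hD⟩ : ∃ D : ℝ, D = 3 * A (xc T) ^ 2 + A (xc T) ^ 3 + A a * (1 + A (xc T)) + 2 * A b
      + 2 * (A (yc T) * (1 + A a + A b)) := ⟨_, rfl⟩
  have ht0 : 0 ≤ A (xc T) := A.nonneg _
  have hs0 : 0 ≤ A (yc T) := A.nonneg _
  have hα0 : 0 ≤ A a := A.nonneg _
  have hβ0 : 0 ≤ A b := A.nonneg _
  have hD0 : 0 ≤ D := by rw [hD]; positivity
  have hDD : 0 ≤ 16 * D ^ 2 := by positivity
  refine ⟨1 + 2 * A (xc T) + 16 * D ^ 2, by linarith, ?_⟩
  intro P hP hC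
  have hX1 : 1 ≤ A (xc P) := by linarith
  have hX2 : 2 * A (xc T) + 1 ≤ A (xc P) := by linarith
  have hx : xc P ≠ xc T := by
    intro h
    rw [h] at hX2
    linarith
  refine ⟨(xc_add P T hP hT hx).1, ?_⟩
  have hkey := xc_add_sub P T hP hT hx
  have hy : A (yc P) ^ 2 ≤ A (xc P) ^ 3 + A a * A (xc P) + A b := by
    have h := yc_sq P hP
    have h' : A (yc P) ^ 2 = A (xc P ^ 3 + a * xc P + b) := by rw [← map_pow, h]
    rw [h']
    refine (A.add_le _ _).trans (add_le_add ((A.add_le _ _).trans ?_) le_rfl)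
    rw [map_pow, map_mul]
  have hnum := (num_bound A a b (xc P) (xc T) (yc P) (yc T)).trans
    (real_bound (A (xc T)) (A (yc T)) (A a) (A b) (A (xc P)) (A (yc P)) ht0 hs0 hα0 hβ0 hX1
      (A.nonneg _) hy)
  rw [← hD, ← hkey, map_mul, map_pow] at hnum
  have hden : A (xc P) / 2 ≤ A (xc P - xc T) := by
    have h' : A (xc P) ≤ A (xc P - xc T) + A (xc T) := by
      simpa using A.add_le (xc P - xc T) (xc T)
    linarith
  have := end_bound (A (xc P)) D (A (xc (P + T) - xc T)) (A (xc P - xc T)) hX1 hD0 (A.nonneg _)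
    hden hnum
  linarith

end Pool.Agent.J4H17.GE
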